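import Pool.Agent.MP_7b45f6_mp.H32.Spec

/-!
# The bounds for the partition function of walks
-/

set_option autoImplicit false

namespace Pool.Agent.MP_7b45f6_mp.H32

open Classical Filter Topology

namespace WALK

theorem hd_of {w : List P} (h : w.head? = some 0) : hd w = 0 := by
  cases w with
  | nil => rfl
  | cons p l => simpa using h

theorem head_of {w : List P} (h : w ≠ []) (h0 : hd w = 0) : w.head? = some 0 := by
  cases w with
  | nil => exact absurd rfl h
  | cons p l => simpa using h0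

theorem fin (n : ℕ) : (Walks n).Finite := by
  by_contra h
  obtain ⟨t, h1, h2⟩ := Set.Infinite.exists_subset_card_eq h (6 ^ n + 1)
  have := card_chain n 0 t fun w hw => ⟨(h1 hw).1, hd_of (h1 hw).2.1, (h1 hw).2.2.2.1⟩
  omega

theorem zw_eq (hc : ConvStmt) (a b l : ℝ) (n : ℕ) : Zw n a b =
    Real.exp (l * (n + 1) - b * n) * ∑ w ∈ (fin n).toFinset, ew ⟨a, b, l⟩ w := by
  rw [Zw, finsum_mem_eq_finite_toFinset_sum _ (fin n), Finset.mul_sum]
  refine Finset.sum_congr rfl fun w hw => ?_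
  obtain ⟨h1, -, h3, h4, -⟩ := (fin n).mem_toFinset.1 hw
  have h5 := hc.1 w h3 h4
  rw [h1, Nat.add_sub_cancel] at h5
  have h6 : (A2 w.toFinset : ℝ) = 2 * (contacts w.toFinset (edges w) + n) := by
    exact_mod_cast h5.symm
  rw [ew, ← Real.exp_add, phi, List.toFinset_card_of_nodup h3, h1, h6]
  congr 1
  push_cast
  ring

theorem zw_le (hc : ConvStmt) {a b l G : ℝ} {n : ℕ} (h : Bd (Walks n) (ew ⟨a, b, l⟩) G) :
    Zw n a b ≤ Real.exp (l * (n + 1) - b * n) * G := by
  rw [zw_eq hc a b l]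
  exact mul_le_mul_of_nonneg_left (h _ (by simp)) (Real.exp_pos _).le

theorem le_zw (hc : ConvStmt) {a b l G : ℝ} {n : ℕ} (h : Lb (Walks n) (ew ⟨a, b, l⟩) G) :
    Real.exp (l * (n + 1) - b * n) * G ≤ Zw n a b := by
  rw [zw_eq hc a b l]
  obtain ⟨s, h1, h2⟩ := h
  refine mul_le_mul_of_nonneg_left (h2.trans (Finset.sum_le_sum_of_subset_of_nonneg
    (fun w hw => (fin n).mem_toFinset.2 (h1 hw)) fun w _ _ => (ew_pos _ w).le)) (Real.exp_pos _).le

theorem tot_eq {n : ℕ} {w : List P} (h : w ∈ Walks n) : tot ∅ w = n := by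
  rw [tot, dI_empty, len_of_chain h.2.2.2.1, h.1]
  rfl

theorem sing {n : ℕ} {R : ℝ} (hR : 0 ≤ R) : Walks n ⊆ Sing ∅ 0 (2 * n) R := by
  intro w h
  have h1 := tot_eq h
  refine ⟨⟨h.2.2.1, h.2.2.2.2⟩, (jn_eq_zero.2 h.2.2.2.1).le, ?_, ?_⟩
  · have h2 : bx w ≤ n := bx_le.2 fun p hp i => by
      have h3 := d1_hd_le_len hp
      have h4 := coord_le_d1 (hd w) p i
      rw [len_of_chain h.2.2.2.1, h.1] at h3
      rw [hd_of h.2.1] at h3 h4
      simp only [Pi.zero_apply, zero_sub, Int.natAbs_neg] at h4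
      omega
    rw [sz, h1]
    omega
  · rw [h1, h.1]
    push_cast
    linarith

theorem ev_lin (c : ℝ) {δ : ℝ} (hδ : 0 < δ) : ∀ᶠ n : ℕ in atTop, c ≤ δ * n :=
  (tendsto_natCast_atTop_atTop.const_mul_atTop hδ).eventually_ge_atTop c

theorem upper (hc : ConvStmt) (a b l C : ℝ) (hQ : Q ⟨a, b, l⟩ ∅ C) (δ : ℝ) (hδ : 0 < δ) :
    ∀ᶠ n : ℕ in atTop, Zw n a b ≤ Real.exp ((l - b + δ) * n) := by
  have hρ : 0 < δ / (3 * (|C| + 1)) := by positivity
  have h3 : 0 < δ / 3 := by positivity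
  have hC : C * (δ / (3 * (|C| + 1))) ≤ δ / 3 := by
    rw [← mul_div_assoc, div_le_div_iff₀ (by positivity) (by positivity)]
    nlinarith [le_abs_self C]
  filter_upwards [hQ 0 2 _ _ hρ h3, ev_lin l h3] with n h1 h2
  have h4 : Bd (Walks n) (ew ⟨a, b, l⟩) _ := h1.mono (sing (by positivity)) (fun w hw => by
    refine Real.exp_le_exp.2 ?_
    rw [pot, tot_eq hw, hw.1]
    push_cast
    linarith [kap_nonneg ⟨a, b, l⟩]) le_rfl
  refine (zw_le hc h4).trans ?_
  rw [← Real.exp_add]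
  refine Real.exp_le_exp.2 ?_
  have h5 := mul_le_mul_of_nonneg_right hC (Nat.cast_nonneg (α := ℝ) n)
  linarith

theorem cut (θ : Par) {n N : ℕ} (hN : N = n + 1 ∨ N = n + 2) (h : Lb (Tour 0 N) (ew θ) 1) :
    Lb (Walks n) (ew θ) (1 / (Real.exp (kap θ) * (7 : ℕ))) := by
  have hf := ((fan_dec Finset.univ fun (i : Fin 3) (y : List P) => y ++ [lt y + ev i]).or
    (fan_dec Finset.univ fun (i : Fin 3) (y : List P) => y ++ [lt y - ev i])).or
    (fan_fun fun y : List P => y)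
  refine h.transfer (hf.mono (fun _ _ h => h) (by simp)) (Real.exp_pos _) (by norm_num)
    (fun y => (ew_pos θ y).le) fun x hx => ?_
  obtain ⟨h1, h2, h3, h4, -⟩ := hx
  have hx0 : x ≠ [] := by
    rintro rfl
    simp at h2
    omega
  rcases hN with rfl | rfl
  · refine ⟨x, ⟨h2, head_of hx0 h3, h1.1, h4, h1.2⟩, Or.inr rfl, ?_⟩
    exact le_mul_of_one_le_left (ew_pos θ x).le (Real.one_le_exp (kap_nonneg θ))
  · obtain ⟨y, q, rfl⟩ := (List.eq_nil_or_concat' x).resolve_left hx0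
    have h5 : y.length = n + 1 := by simpa using h2
    have hy0 : y ≠ [] := by
      rintro rfl
      simp at h5
    have hg := h1.sub (List.sublist_append_left y [q])
    rw [hd_append hy0] at h3
    rw [← jn_eq_zero, jn, cs_append _ hy0 (by simp)] at h4
    have h6 : Adj (lt y) q := by
      by_contra h6
      rw [hd_cons, jmp_not h6] at h4
      omega
    refine ⟨y, ⟨h5, head_of hy0 h3, hg.1, jn_eq_zero.1 (by rw [jn]; omega), hg.2⟩, Or.inl ?_, ?_⟩
    · obtain ⟨i, hi⟩ := adj_iff.1 h6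
      exact hi.imp (fun h => ⟨i, Finset.mem_univ _, by rw [h]⟩)
        fun h => ⟨i, Finset.mem_univ _, by rw [h]⟩
    · have h7 := phi_near θ (V := y.toFinset) (W := (y ++ [q]).toFinset) (m := 1)
        (fun p hp => by simp only [List.mem_toFinset, List.mem_append] at hp ⊢; exact Or.inl hp)
        (by rw [h1.card, hg.card]; simp)
      rw [ew, ew, ← Real.exp_add]
      refine Real.exp_le_exp.2 ?_
      have := (abs_le.1 h7).2
      push_cast at this
      linarith

theorem lower (hc : ConvStmt) (a b l : ℝ)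
    (h : ∀ᶠ m : ℕ in atTop, Lb (Tour 0 (2 * m)) (ew ⟨a, b, l⟩) 1) (δ : ℝ) (hδ : 0 < δ) :
    ∀ᶠ n : ℕ in atTop, Real.exp ((l - b - δ) * n) ≤ Zw n a b := by
  obtain ⟨M, hM⟩ := eventually_atTop.1 h
  filter_upwards [eventually_ge_atTop (2 * M), ev_lin (kap ⟨a, b, l⟩ + 7 - l) hδ] with n h1 h2
  refine le_trans ?_ (le_zw hc (cut ⟨a, b, l⟩ (by omega) (hM (n / 2 + 1) (by omega))))
  rw [mul_one_div, le_div_iff₀ (by positivity)]
  have h3 : ((7 : ℕ) : ℝ) ≤ Real.exp 7 := by
    have := Real.add_one_le_exp 7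
    push_cast
    linarith
  refine (mul_le_mul_of_nonneg_left (mul_le_mul_of_nonneg_left h3 (Real.exp_pos _).le)
    (Real.exp_pos _).le).trans ?_
  rw [← Real.exp_add, ← Real.exp_add]
  exact Real.exp_le_exp.2 (by linarith)

theorem line (n : ℕ) : ((List.range (n + 1)).map fun k : ℕ => (k : ℤ) • ev 0) ∈ Walks n := by
  refine ⟨by simp, by simp [List.range_succ_eq_map], List.nodup_range.map fun k k' h => ?_, ?_,
    fun p hp => ?_⟩
  · simpa using congrFun h 0
  · rw [List.isChain_map, List.isChain_range_succ]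
    intro m _
    have := adj_ev ((m : ℤ) • ev 0) 0
    simpa [add_smul] using this
  · obtain ⟨k, -, rfl⟩ := List.mem_map.1 hp
    simp [ev_apply]

theorem crude (hc : ConvStmt) (a b : ℝ) (n : ℕ) :
    Real.exp (-(|a| + 7 * |b|) * (n + 1)) ≤ Zw n a b := by
  refine le_trans ?_ (le_zw hc (lb_of_mem (ew ⟨a, b, 0⟩) (line n)))
  have h1 := (abs_le.1 (abs_phi_le ⟨a, b, 0⟩
    ((List.range (n + 1)).map fun k : ℕ => (k : ℤ) • ev 0).toFinset)).1
  rw [List.toFinset_card_of_nodup (line n).2.2.1, (line n).1, kap] at h1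
  rw [ew, ← Real.exp_add]
  refine Real.exp_le_exp.2 ?_
  have h2 := mul_le_mul_of_nonneg_right (le_abs_self b) (Nat.cast_nonneg (α := ℝ) n)
  have h3 := abs_nonneg b
  simp only [abs_zero, add_zero] at h1
  push_cast at h1
  linarith

end WALK

theorem walk_of : ConvStmt → WalkStmt := fun hc a b l =>
  ⟨WALK.upper hc a b l, WALK.lower hc a b l, WALK.crude hc a b⟩

end Pool.Agent.MP_7b45f6_mp.H32
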